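import Pool.Agent.Y160.RK.Key
import Pool.Agent.Y160.FT2.Main
import Pool.Agent.Y228.FT.TwA

/-!
# Independence of the classes of points: the family
-/

set_option autoImplicit false
set_option linter.all false

open Polynomial IsDedekindDomain WithZero
open scoped nonZeroDivisors Classical

namespace Pool.Agent.Y160.RK

open Pool.Agent.TH115.GD (incl rs ak Sep rs_mul)
open Pool.Agent.Y160.SQ (Hyps Good Jac sg Rt)
open Pool.Agent.Y160.SE (IsPw SmoothC)
open Pool.Agent.Y160.FT
open Pool.Agent.Y228.FT (vpr vpr_self vpr_eq_one val_unit isPw_exp val_ne_zero)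

/-- The map of the coefficients. -/
noncomputable def psi (k K : Type) [Field k] [Field K] [Algebra k[X] K] : k[X] →+* K[X] :=
  mapRingHom ((algebraMap k[X] K).comp C)

/-- Independence modulo `q`-th powers. -/
def IndP {k : Type} [Field k] (p q : ℕ) (g : k[X]) (l : List (k[X] × k)) : Prop :=
  ∀ (R L : Type) [CommRing R] [IsDomain R] [Algebra k R] [Field L] [Algebra R L]
    [IsFractionRing R L] (x u : R), Pres x u (FF p q g l) →
    ∀ (c : k) (A : k[X]) (w : L), c ≠ 0 → VV g A →
      algebraMap R L (algebraMap k R c * aeval x A) = w ^ q →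
      ∃ (c' : k) (j : ℕ) (B : k[X]), c' ≠ 0 ∧ A = C c' * g ^ j * B ^ q

section irr

variable {k K : Type} [Field k] [Field K] [Algebra k[X] K] [IsFractionRing k[X] K]

/-- An irreducible polynomial over `k` is irreducible over `k(t)`. -/
theorem irr_psi {G : k[X]} (hG : Irreducible G) (hm : G.Monic) : Irreducible (psi k K G) := by
  have h1 : Prime (C G : k[X][X]) := Polynomial.prime_C_iff.2 hG.prime
  have h2 : Prime (Bivariate.swap (R := k) (C G)) :=
    (MulEquiv.prime_iff (Bivariate.swap (R := k)).toMulEquiv).2 h1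
  rw [Bivariate.swap_C] at h2
  have h3 : (mapRingHom (C : k →+* k[X]) G).Monic := hm.map _
  have h4 := (h3.irreducible_iff_irreducible_map_fraction_map (K := K)).1 h2.irreducible
  have e : (mapRingHom (C : k →+* k[X]) G).map (algebraMap k[X] K) = psi k K G := by
    unfold psi
    rw [coe_mapRingHom, coe_mapRingHom, Polynomial.map_map]
  rw [← e]
  exact h4

end irr

section cont

variable {k K : Type} [Field k] [Field K] [Algebra k[X] K] [IsFractionRing k[X] K]

/-- The function field of the curve. -/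
theorem famCont3 {Goal : Prop} {p q s : ℕ} (hp : p.Prime) (hq : q = p ^ (s + 1))
    {g : k[X]} {l : List (k[X] × k)} (hC : Base p g l)
    (hFam : FamP p q g l) {R : Type} [CommRing R] [IsDedekindDomain R] [Algebra k R] {x u : R}
    (hP : Pres x u (FF p q g l))
    (cont : ∀ (N : Type) [Field N] [Algebra K N]
      [Algebra R N] [IsFractionRing R N] (θ : N),
      aeval θ ((ff p q g l).map (algebraMap k[X] K)) = 0 →
      IntermediateField.adjoin K {θ} = ⊤ →
      (∀ y : k[X], aeval θ (psi k K y) = algebraMap R N (aeval x y)) →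
      aeval θ (psi k K g) ≠ 0 → Goal) : Goal := by
  have hq0 : q ≠ 0 := by rw [hq]; exact pow_ne_zero _ hp.ne_zero
  obtain ⟨hmon, hdeg, hsm, hK, hF⟩ := hFam
  obtain ⟨hsurj, hker⟩ := pres_swap hP
  have hn : (ff p q g l).natDegree ≠ 0 := by
    rw [hdeg]
    intro h0
    have := hC.cop
    rw [h0, Nat.coprime_zero_right] at this
    exact hp.one_lt.ne' this
  -- the algebra structures
  let φ : k[X] →+* R := ((aeval u : k[X] →ₐ[k] R) : k[X] →+* R)
  letI : Algebra k[X] R := φ.toAlgebra
  haveI : IsDomain R := inferInstance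
  have hinjR : Function.Injective (algebraMap k[X] R) := by
    rw [injective_iff_map_eq_zero]
    intro y hy
    have h1 : eval₂ φ x (C y) = 0 := by rw [eval₂_C]; exact hy
    have h2 := (hker _).1 h1
    by_contra hy0
    have h3 := natDegree_le_of_dvd h2 (C_ne_zero.2 hy0)
    rw [natDegree_C] at h3
    exact hn (Nat.le_zero.1 h3)
  have hkX : ∀ y : k[X], algebraMap k[X] (FractionRing R) y = algebraMap R (FractionRing R) (φ y) :=
    fun y => IsScalarTower.algebraMap_apply k[X] R (FractionRing R) y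
  have hinjN : Function.Injective (algebraMap k[X] (FractionRing R)) := by
    intro y y' h
    rw [hkX, hkX] at h
    exact hinjR (IsFractionRing.injective R (FractionRing R) h)
  letI : Algebra K (FractionRing R) := (IsFractionRing.lift hinjN : K →+* FractionRing R).toAlgebra
  haveI : IsScalarTower k[X] K (FractionRing R) := IsScalarTower.of_algebraMap_eq fun y =>
    (IsFractionRing.lift_algebraMap hinjN y).symm
  have hroot : eval₂ φ x (ff p q g l) = 0 := (hker _).2 dvd_rfl
  let θ : FractionRing R := algebraMap R (FractionRing R) x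
  have hθev : ∀ P : k[X][X], aeval θ (P.map (algebraMap k[X] K)) =
      algebraMap R (FractionRing R) (eval₂ φ x P) := by
    intro P
    rw [aeval_map_algebraMap]
    have h1 : algebraMap k[X] (FractionRing R) = (algebraMap R (FractionRing R)).comp φ :=
      RingHom.ext hkX
    rw [aeval_def, h1]
    exact (hom_eval₂ P φ (algebraMap R (FractionRing R)) x).symm
  have hθ : aeval θ ((ff p q g l).map (algebraMap k[X] K)) = 0 := by
    rw [hθev, hroot, map_zero]
  have htop : IntermediateField.adjoin K {θ} = ⊤ := by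
    rw [eq_top_iff]
    rintro z -
    have hR : ∀ r : R, algebraMap R (FractionRing R) r ∈ IntermediateField.adjoin K {θ} := by
      intro r
      obtain ⟨P, rfl⟩ := hsurj r
      rw [← hθev]
      exact IntermediateField.algebra_adjoin_le_adjoin K {θ}
        (aeval_mem_adjoin_singleton K θ)
    obtain ⟨a, b, hb, rfl⟩ := IsFractionRing.div_surjective (A := R) z
    exact div_mem (hR a) (hR b)
  have hφC : φ.comp C = algebraMap k R := by
    apply RingHom.ext
    intro c
    show aeval u (C c) = _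
    rw [aeval_C]
  have hgx : aeval x g ≠ 0 := by
    intro h0
    have h1 : eval₂ φ x (g.map C) = 0 := by
      rw [eval₂_map, hφC]
      exact h0
    have h2 := (hker _).1 h1
    have h3 : (g.map C : k[X][X]).natDegree = (ff p q g l).natDegree := by
      rw [hdeg, hC.monic.natDegree_map]
    have h4 := eq_of_monic_of_dvd_of_natDegree_le hmon (hC.monic.map C) h2 h3.le
    have h5 : (EE p (mapRingHom C) l (C X) : k[X][X]) ^ q = 0 := by
      have h6 : g.map C + (EE p (mapRingHom C) l (C X) : k[X][X]) ^ q = g.map C := h4.symm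
      exact add_eq_left.1 h6
    have h7 := pow_eq_zero_iff hq0 |>.1 h5
    refine EE_ne hp.ne_zero l ?_ h7
    intro y hy
    obtain ⟨l1, l2, hl⟩ := List.append_of_mem hy
    exact hC.ne l1 y.1 y.2 l2 hl
  have h2 : ∀ y : k[X], aeval θ (psi k K y) = algebraMap R (FractionRing R) (aeval x y) := by
    intro y
    have h3 : psi k K y = (y.map C).map (algebraMap k[X] K) := by
      rw [Polynomial.map_map]; rfl
    rw [h3, hθev, eval₂_map]
    congr 1
    rw [hφC]
    rfl
  refine cont (FractionRing R) θ hθ htop h2 ?_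
  rw [h2]
  intro h
  exact hgx (IsFractionRing.injective R (FractionRing R) (by rw [h, map_zero]))

end cont

section fam

variable {k K : Type} [Field k] [Field K] [Algebra k[X] K] [IsFractionRing k[X] K]

/-- Comparison of the multiplicities. -/
theorem mult_cmp {q n r : ℕ} (hq : q ≠ 0) (hcop : q.Coprime n) {G : Fin (r + 1) → k[X]}
    (hG : ∀ j, Irreducible (G j) ∧ (G j).Monic) (hGi : Function.Injective G) (e : Fin r → ℕ)
    {c : k} (hc : c ≠ 0) (j : ℕ) (B : k[X])
    (h : (∏ i, G (Fin.castSucc i) ^ e i) ^ n = C c * (∏ i, G i) ^ j * B ^ q) :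
    ∀ i, q ∣ e i := by
  have hv1 : ∀ i i', i ≠ i' → (vpr (hG i).1.prime).intValuation (G i') = 1 := by
    intro i i' hne
    rw [vpr_eq_one]
    intro hd
    have h1 := (hG i).1.associated_of_dvd (hG i').1 hd
    exact hne (hGi (eq_of_monic_of_associated (hG i).2 (hG i').2 h1))
  have hpw : ∀ i (m : ℕ), (vpr (hG i).1.prime).intValuation (G i) ^ m = exp (-(m : ℤ)) := by
    intro i m
    rw [vpr_self, ← exp_nsmul]
    congr 1
    rw [nsmul_eq_mul]
    ring
  have hprod : ∀ i, (vpr (hG i).1.prime).intValuation (∏ i, G i) =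
      (vpr (hG i).1.prime).intValuation (G i) := by
    intro i
    rw [map_prod, Finset.prod_eq_single i]
    · intro i' _ hne
      exact hv1 i i' (Ne.symm hne)
    · intro hn; exact absurd (Finset.mem_univ i) hn
  have hcv : ∀ i, (vpr (hG i).1.prime).intValuation (C c) = 1 := fun i =>
    val_unit _ (isUnit_C.2 (IsUnit.mk0 _ hc))
  have hright : ∀ i, (vpr (hG i).1.prime).intValuation (C c * (∏ i, G i) ^ j * B ^ q) =
      exp (-(j : ℤ)) * (vpr (hG i).1.prime).intValuation B ^ q := by
    intro i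
    rw [map_mul, map_mul, map_pow, map_pow, hcv, hprod, hpw, one_mul]
  have hB0 : B ≠ 0 := by
    rintro rfl
    rw [zero_pow hq, mul_zero] at h
    have h1 := eq_zero_of_pow_eq_zero h
    rw [Finset.prod_eq_zero_iff] at h1
    obtain ⟨i, -, hi⟩ := h1
    exact pow_ne_zero _ (hG _).1.ne_zero hi
  have hj : q ∣ j := by
    have h1 := congrArg ((vpr (hG (Fin.last r)).1.prime).intValuation) h
    rw [hright, map_pow, map_prod, Finset.prod_eq_one (fun i _ => by
      rw [map_pow, hv1 _ _ (Fin.castSucc_lt_last i).ne', one_pow]), one_pow] at h1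
    apply isPw_exp hq
    have hvB := val_ne_zero (vpr (hG (Fin.last r)).1.prime) hB0
    refine ⟨((vpr (hG (Fin.last r)).1.prime).intValuation B)⁻¹, ?_⟩
    rw [inv_pow]
    exact eq_inv_of_mul_eq_one_left h1.symm
  intro i
  have h1 := congrArg ((vpr (hG (Fin.castSucc i)).1.prime).intValuation) h
  rw [hright, map_pow, map_prod, Finset.prod_eq_single i (fun i' _ hne => by
      rw [map_pow, hv1 _ _ (fun h => hne (Fin.castSucc_injective r h).symm), one_pow])
      (fun hn => absurd (Finset.mem_univ i) hn), map_pow, hpw, ← exp_nsmul] at h1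
  obtain ⟨j', rfl⟩ := hj
  have h2 : q ∣ n * e i := by
    apply isPw_exp hq
    refine ⟨exp (-(j' : ℤ)) * (vpr (hG (Fin.castSucc i)).1.prime).intValuation B, ?_⟩
    rw [mul_pow, ← exp_nsmul]
    have e1 : exp (-((n * e i : ℕ) : ℤ)) = exp (n • -((e i : ℕ) : ℤ)) := by
      congr 1
      rw [nsmul_eq_mul]; push_cast; ring
    have e2 : exp (-((q * j' : ℕ) : ℤ)) = exp (q • -((j' : ℕ) : ℤ)) := by
      congr 1
      rw [nsmul_eq_mul]; push_cast; ring
    rw [e1, h1, e2]
  exact hcop.dvd_of_dvd_mul_left h2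

/-- The polynomial `h` over `K`. -/
noncomputable def hK (k K : Type) [Field k] [Field K] [Algebra k[X] K] (p : ℕ)
    (l : List (k[X] × k)) : K[X] :=
  (EE p (mapRingHom C) l (C X) : k[X][X]).map (algebraMap k[X] K)

theorem ff_sub {p q : ℕ} (g : k[X]) (l : List (k[X] × k)) :
    (ff p q g l).map (algebraMap k[X] K) - hK k K p l ^ q = psi k K g := by
  unfold ff hK
  rw [Polynomial.map_add, Polynomial.map_pow, add_sub_cancel_right, Polynomial.map_map]
  rfl

theorem goodF {p q s : ℕ} (hp : p.Prime)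
    (hq : q = p ^ (s + 1)) {ζ : k} (hζ : IsPrimitiveRoot ζ q) {g : k[X]} {l : List (k[X] × k)}
    (hC : Base p g l) (hFam : FamP p q g l) :
    Good q (algebraMap k[X] K (C ζ)) ((ff p q g l).map (algebraMap k[X] K)) := by
  have hKinj : Function.Injective ((algebraMap k[X] K).comp C) :=
    (IsFractionRing.injective k[X] K).comp C_injective
  exact ⟨hq ▸ hp.isPrimePow.pow (Nat.succ_ne_zero s),
      hζ.map_of_injective (f := (algebraMap k[X] K).comp C) hKinj,
      hFam.monic.map _, (hFam.irrK K).2, by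
      rw [hFam.monic.natDegree_map, hFam.deg, hq]
      exact Nat.Coprime.pow_left _ hC.cop⟩

/-- **The rank**. -/
theorem famRank (H : Hyps) (hInj : StInj) (hLin : StLin) {p q s : ℕ} (hp : p.Prime)
    (hq : q = p ^ (s + 1)) {ζ : k} (hζ : IsPrimitiveRoot ζ q) {g : k[X]} {l : List (k[X] × k)}
    (hC : Base p g l) (hFam : FamP p q g l) (hTower : TowP p q g l) (hI : IndP p q g l) {r : ℕ}
    (G : Fin (r + 1) → k[X]) (hG : ∀ j, Irreducible (G j) ∧ (G j).Monic)
    (hGi : Function.Injective G) (hgG : g = ∏ j, G j)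
    (hg : Good q (algebraMap k[X] K (C ζ)) ((ff p q g l).map (algebraMap k[X] K))) :
    LinearIndependent ℤ (fun i : Fin r × Fin (q - 1) => ((sg hg K) ^ (i.2 : ℕ))
      (ptCl q ((ff p q g l).map (algebraMap k[X] K)) (psi k K (G (Fin.castSucc i.1)),
        hK k K p l))) := by
  obtain ⟨R, _, _, _, x, u, hP, -⟩ := hTower
  have hq0 : q ≠ 0 := by rw [hq]; exact pow_ne_zero _ hp.ne_zero
  haveI : NeZero q := ⟨hq0⟩
  refine famCont3 (K := K) hp hq hC hFam hP ?_
  intro N _ _ _ _ θ hθ htop hψ hgθ
  obtain ⟨hirrK, hsepK⟩ := hFam.irrK K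
  -- the embedding
  have hs : IsSeparable K θ := hsepK.of_dvd (minpoly.dvd K θ hθ)
  have f3 : Algebra.IsSeparable K (IntermediateField.adjoin K {θ}) :=
    (IntermediateField.isSeparable_adjoin_simple_iff_isSeparable K N).2 hs
  rw [htop] at f3
  haveI : Algebra.IsSeparable K N :=
    Algebra.IsSeparable.of_algHom K (⊤ : IntermediateField K N)
      (IntermediateField.topEquiv (F := K) (E := N)).symm.toAlgHom
  let i : N →ₐ[K] Sep K := IsSepClosed.lift
  letI : Algebra N (Sep K) := i.toRingHom.toAlgebra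
  haveI : IsScalarTower K N (Sep K) := IsScalarTower.of_algebraMap_eq fun x => (i.commutes x).symm
  have ha : Rt ((ff p q g l).map (algebraMap k[X] K)) (algebraMap N (Sep K) θ) := by
    show aeval _ ((ff p q g l).map (algebraMap k[X] K)) = 0
    rw [aeval_algebraMap_apply, hθ, map_zero]
  -- the points
  generalize hh1 : hK k K p l = h1
  generalize hf1 : (ff p q g l).map (algebraMap k[X] K) = f1 at *
  have hfh : f1 - h1 ^ q = psi k K g := by
    rw [← hf1, ← hh1]; exact ff_sub g l
  let P : Fin r → K[X] × K[X] := fun j => (psi k K (G (Fin.castSucc j)), h1)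
  have hGg : ∀ j, G j ∣ g := fun j => by rw [hgG]; exact Finset.dvd_prod_of_mem _ (Finset.mem_univ j)
  have hPp : ∀ j, Irreducible (P j).1 ∧ (P j).1.Monic ∧ ¬ (P j).1 ∣ f1 ∧
      (P j).1 ∣ f1 - (P j).2 ^ q := by
    intro j
    have hm : (psi k K (G (Fin.castSucc j))).Monic := (hG _).2.map _
    have hir := irr_psi (K := K) (hG (Fin.castSucc j)).1 (hG (Fin.castSucc j)).2
    refine ⟨hir, hm, ?_, ?_⟩
    · intro hd
      apply hgθ
      have h3 := hir.associated_of_dvd hirrK hd
      have h4 : f1 ∣ psi k K g := h3.symm.dvd.trans (_root_.map_dvd (psi k K) (hGg _))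
      obtain ⟨v, hv⟩ := h4
      rw [hv, map_mul, hθ, zero_mul]
    · show psi k K (G (Fin.castSucc j)) ∣ f1 - h1 ^ q
      rw [hfh]
      exact _root_.map_dvd (psi k K) (hGg _)
  refine rank_lin (Ω := Sep K) (N := N) H hg hInj hLin hp hq hirrK ha rfl P hPp ?_
  intro e w hw0 hw
  have hnat : f1.natDegree = g.natDegree := by rw [← hf1, hFam.monic.natDegree_map, hFam.deg]
  rw [hnat] at hw
  set A0 : k[X] := ∏ i, G (Fin.castSucc i) ^ e i with hA0
  have hA0θ : (∏ j, aeval θ (P j).1 ^ e j) ^ g.natDegree =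
      algebraMap R N (aeval x (A0 ^ g.natDegree)) := by
    rw [← hψ, map_pow, map_pow, hA0, map_prod, map_prod]
    congr 1
    refine Finset.prod_congr rfl fun j _ => ?_
    rw [map_pow, map_pow]
  have hVV : VV g (A0 ^ g.natDegree) := by
    refine ⟨(∑ i, e i) * g.natDegree, ?_⟩
    rw [pow_mul]
    refine pow_dvd_pow_of_dvd ?_ _
    rw [hA0, ← Finset.prod_pow_eq_pow_sum]
    exact Finset.prod_dvd_prod_of_dvd _ _ fun i _ => pow_dvd_pow_of_dvd (hGg _) _
  obtain ⟨c, hc, hcw⟩ : ∃ c : k, c ≠ 0 ∧
      algebraMap R N (algebraMap k R c * aeval x (A0 ^ g.natDegree)) = w ^ q := by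
    rcases hw with h | h
    · refine ⟨1, one_ne_zero, ?_⟩
      rw [map_one, one_mul, ← hA0θ, h]
    · refine ⟨-1, neg_ne_zero.2 one_ne_zero, ?_⟩
      rw [map_neg, map_one, neg_one_mul, map_neg, ← hA0θ, h, neg_neg]
  obtain ⟨c', j, B, hc', hB⟩ := hI R N x u hP c (A0 ^ g.natDegree) w hc hVV hcw
  have hcop : q.Coprime g.natDegree := by
    rw [hq]; exact Nat.Coprime.pow_left _ hC.cop
  refine mult_cmp hq0 hcop hG hGi e hc' j B ?_
  rw [← hA0, ← hgG]
  exact hB

end fam

end Pool.Agent.Y160.RK
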