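import Pool.Agent.Y160.RK.Key

/-!
# Generation of `J(K)`: iteration, and the relation between the points
-/

set_option autoImplicit false
set_option linter.all false

open Polynomial IsDedekindDomain WithZero
open scoped nonZeroDivisors Classical

namespace Pool.Agent.Y160.RK

open Pool.Agent.TH115.GD (incl rs ak Sep rs_mul)
open Pool.Agent.Y160.SQ

section iter

variable {p m ℓ : ℕ} {K : Type} [Field K] {f : K[X]} {ζ : K} (H : Hyps) (hg : Good ℓ ζ f)

/-- The subgroup generated by the twists of the elements `D j`. -/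
noncomputable def spanD (hg : Good ℓ ζ f) {r : ℕ} (D : Fin r → Jac ℓ f K) : AddSubgroup (Jac ℓ f K) :=
  AddSubgroup.closure (Set.range fun i : Fin r × Fin (ℓ - 1) => ((sg hg K) ^ (i.2 : ℕ)) (D i.1))

include H

theorem sum_tw (x : Jac ℓ f K) : ∑ i ∈ Finset.range ℓ, ((sg hg K) ^ i) x = 0 := by
  have h := pe_nrm H hg x
  unfold pe nrm at h
  rw [map_sum] at h
  have h3 : ∀ S : Finset ℕ, (∑ i ∈ S, aeval (sg hg K) ((X : ℤ[X]) ^ i)) x =
      ∑ i ∈ S, ((sg hg K) ^ i) x := by
    intro S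
    induction S using Finset.induction_on with
    | empty => rw [Finset.sum_empty, Finset.sum_empty]; rfl
    | insert j S hj ih =>
      rw [Finset.sum_insert hj, Finset.sum_insert hj, ← ih, map_pow, aeval_X]
      rfl
  rw [← h3]
  exact h

theorem spanD_sg {r : ℕ} (D : Fin r → Jac ℓ f K) {x : Jac ℓ f K} (hx : x ∈ spanD hg D) :
    sg hg K x ∈ spanD hg D := by
  have hℓ := hg.one_lt
  refine AddSubgroup.closure_induction (p := fun x _ => sg hg K x ∈ spanD hg D) ?_ ?_ ?_ ?_ hx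
  · rintro _ ⟨⟨j, i⟩, rfl⟩
    show sg hg K (((sg hg K) ^ (i : ℕ)) (D j)) ∈ spanD hg D
    have e : sg hg K (((sg hg K) ^ (i : ℕ)) (D j)) = ((sg hg K) ^ ((i : ℕ) + 1)) (D j) := by
      rw [pow_succ']; rfl
    rw [e]
    by_cases hi : (i : ℕ) + 1 < ℓ - 1
    · exact AddSubgroup.subset_closure ⟨(j, ⟨(i : ℕ) + 1, hi⟩), rfl⟩
    · have hi2 : (i : ℕ) + 1 = ℓ - 1 := by have := i.2; omega
      have h2 : (ℓ - 1) + 1 = ℓ := by omega
      have h1 : ∑ i ∈ Finset.range ((ℓ - 1) + 1), ((sg hg K) ^ i) (D j) = 0 := by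
        rw [h2]; exact sum_tw H hg (D j)
      rw [Finset.sum_range_succ] at h1
      rw [hi2, eq_neg_of_add_eq_zero_right h1]
      refine AddSubgroup.neg_mem _ (AddSubgroup.sum_mem _ fun i' hi' => ?_)
      exact AddSubgroup.subset_closure ⟨(j, ⟨i', Finset.mem_range.1 hi'⟩), rfl⟩
  · rw [map_zero]; exact AddSubgroup.zero_mem _
  · intro x y _ _ hx hy
    rw [map_add]; exact AddSubgroup.add_mem _ hx hy
  · intro x _ hx
    rw [map_neg]; exact AddSubgroup.neg_mem _ hx

theorem spanD_pe {r : ℕ} (D : Fin r → Jac ℓ f K) (P : ℤ[X]) {x : Jac ℓ f K}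
    (hx : x ∈ spanD hg D) : pe hg K P x ∈ spanD hg D := by
  induction P using Polynomial.induction_on' generalizing x with
  | add p q hp hq => rw [pe_add]; exact AddSubgroup.add_mem _ (hp hx) (hq hx)
  | monomial n c =>
    induction n generalizing x with
    | zero =>
      rw [monomial_zero_left]
      unfold pe
      rw [aeval_C, Algebra.algebraMap_eq_smul_one]
      show c • x ∈ spanD hg D
      exact AddSubgroup.zsmul_mem _ hx c
    | succ n ih =>
      have e : (monomial (n + 1) c : ℤ[X]) = monomial n c * X := by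
        rw [monomial_mul_X]
      rw [e, pe_mul, pe_X]
      exact ih (spanD_sg H hg D hx)

omit H in
theorem mem_spanD {r : ℕ} (D : Fin r → Jac ℓ f K) (j : Fin r) : D j ∈ spanD hg D := by
  have hℓ := hg.one_lt
  refine AddSubgroup.subset_closure ⟨(j, ⟨0, by omega⟩), ?_⟩
  show ((sg hg K) ^ 0) (D j) = D j
  rw [pow_zero]; rfl

/-- Iteration. -/
theorem gen_iter (hp : p.Prime) (hpm : ℓ = p ^ m) {r : ℕ} (D : Fin r → Jac ℓ f K)
    (hgen : ∀ x : Jac ℓ f K, ∃ y : Jac ℓ f K, x - pe hg K (1 - X) y ∈ spanD hg D) (n : ℕ)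
    (x : Jac ℓ f K) : ∃ y : Jac ℓ f K, x - p ^ n • y ∈ spanD hg D := by
  have key : ∀ (n : ℕ) (x : Jac ℓ f K), ∃ y : Jac ℓ f K,
      x - pe hg K ((1 - X) ^ n) y ∈ spanD hg D := by
    intro n
    induction n with
    | zero =>
      intro x
      refine ⟨x, ?_⟩
      rw [pow_zero, pe_one, sub_self]
      exact AddSubgroup.zero_mem _
    | succ n ih =>
      intro x
      obtain ⟨y, hy⟩ := ih x
      obtain ⟨y', hy'⟩ := hgen y
      refine ⟨y', ?_⟩
      have h1 := spanD_pe H hg D ((1 - X) ^ n) hy'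
      have h2 := AddSubgroup.add_mem _ hy h1
      rw [map_sub, ← pe_mul, ← pow_succ, sub_add_sub_cancel] at h2
      exact h2
  obtain ⟨W, hW⟩ := exists_W' (p := p) (m := m) hg hp hpm
  have hWn : ∀ (n : ℕ) (x : Jac ℓ f K), pe hg K ((1 - X) ^ (ℓ * n)) x =
      pe hg K (W ^ n) (p ^ n • x) := by
    intro n
    induction n with
    | zero => intro x; rw [mul_zero, pow_zero, pow_zero, pow_zero, one_smul]
    | succ n ih =>
      intro x
      rw [mul_add, mul_one, pow_add, pe_mul, hW, ih, pow_succ W, pe_mul, pow_succ p, mul_smul,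
        ← map_nsmul, ← map_nsmul, smul_comm]
  obtain ⟨y, hy⟩ := key (ℓ * n) x
  refine ⟨pe hg K (W ^ n) y, ?_⟩
  rw [hWn, map_nsmul] at hy
  exact hy

end iter

section rel

variable {ℓ : ℕ} {K : Type} [Field K] {f : K[X]}

/-- The product of the ideals `(p, y - c)` for coprime polynomials `p`. -/
theorem prod_prI {ι : Type} (s : Finset ι) (P : ι → K[X]) (c : K[X])
    (hc : ∀ i ∈ s, ∀ j ∈ s, i ≠ j → IsCoprime (P i) (P j)) :
    ∏ i ∈ s, prI ℓ f (P i) c = prI ℓ f (∏ i ∈ s, P i) c := by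
  induction s using Finset.induction_on with
  | empty =>
    rw [Finset.prod_empty, Finset.prod_empty]
    unfold prI
    rw [xp_one, Ideal.one_eq_top, eq_comm, Ideal.eq_top_iff_one]
    exact Ideal.subset_span (Or.inl rfl)
  | insert i s hi ih =>
    rw [Finset.prod_insert hi, Finset.prod_insert hi, ih fun a ha b hb => hc a
      (Finset.mem_insert_of_mem ha) b (Finset.mem_insert_of_mem hb)]
    have hcop : IsCoprime (P i) (∏ j ∈ s, P j) := by
      apply IsCoprime.prod_right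
      intro j hj
      refine hc i (Finset.mem_insert_self i s) j (Finset.mem_insert_of_mem hj) ?_
      rintro rfl
      exact hi hj
    set A := P i
    set B := ∏ j ∈ s, P j
    obtain ⟨u, v, huv⟩ := hcop
    unfold prI
    apply le_antisymm
    · rw [Ideal.mul_le]
      intro a ha b hb
      rw [Ideal.mem_span_pair] at ha hb ⊢
      obtain ⟨a1, a2, rfl⟩ := ha
      obtain ⟨b1, b2, rfl⟩ := hb
      refine ⟨a1 * b1, a2 * (b1 * xp ℓ f B + b2 * (yy ℓ f - xp ℓ f c)) + a1 * xp ℓ f A * b2, ?_⟩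
      rw [xp_mul]
      ring
    · rw [Ideal.span_le]
      have hA : xp ℓ f A ∈ Ideal.span {xp ℓ f A, yy ℓ f - xp ℓ f c} := Ideal.subset_span (Or.inl rfl)
      have hB : xp ℓ f B ∈ Ideal.span {xp ℓ f B, yy ℓ f - xp ℓ f c} := Ideal.subset_span (Or.inl rfl)
      have hyA : yy ℓ f - xp ℓ f c ∈ Ideal.span {xp ℓ f A, yy ℓ f - xp ℓ f c} :=
        Ideal.subset_span (Or.inr rfl)
      have hyB : yy ℓ f - xp ℓ f c ∈ Ideal.span {xp ℓ f B, yy ℓ f - xp ℓ f c} :=
        Ideal.subset_span (Or.inr rfl)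
      rintro z (rfl | rfl)
      · rw [SetLike.mem_coe, xp_mul]
        exact Ideal.mul_mem_mul hA hB
      · rw [SetLike.mem_coe]
        have h1 : yy ℓ f - xp ℓ f c = xp ℓ f u * (xp ℓ f A * (yy ℓ f - xp ℓ f c)) +
            xp ℓ f v * ((yy ℓ f - xp ℓ f c) * xp ℓ f B) := by
          have h2 : xp ℓ f u * xp ℓ f A + xp ℓ f v * xp ℓ f B = 1 := by
            rw [← xp_mul, ← xp_mul, ← xp_add, huv, xp_one]
          linear_combination -(yy ℓ f - xp ℓ f c) * h2
        have h3 := Ideal.add_mem _ (Ideal.mul_mem_left _ (xp ℓ f u) (Ideal.mul_mem_mul hA hyB))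
          (Ideal.mul_mem_left _ (xp ℓ f v) (Ideal.mul_mem_mul hyA hB))
        exact (congrArg (fun z => z ∈ Ideal.span {xp ℓ f A, yy ℓ f - xp ℓ f c} *
          Ideal.span {xp ℓ f B, yy ℓ f - xp ℓ f c}) h1).mpr h3

theorem prI_all (c : K[X]) : prI ℓ f (f - c ^ ℓ) c = Ideal.span {yy ℓ f - xp ℓ f c} := by
  unfold prI
  apply le_antisymm
  · rw [Ideal.span_le]
    rintro z (rfl | rfl)
    · rw [SetLike.mem_coe, Ideal.mem_span_singleton, xp_sub, xp_pow, ← yy_pow]
      exact sub_dvd_pow_sub_pow _ _ _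
    · exact Ideal.subset_span rfl
  · rw [Ideal.span_le]
    rintro z rfl
    exact Ideal.subset_span (Or.inr rfl)

variable {ζ : K} (H : Hyps) (hg : Good ℓ ζ f)

include H hg

/-- The sum of all the points `p_j = 0`, `y = c`, where `f - c ^ ℓ` is the product of the `p_j`. -/
theorem sum_pts {n : ℕ} (P : Fin n → K[X]) (c : K[X]) (hP : ∀ j, Irreducible (P j) ∧ (P j).Monic)
    (hPi : Function.Injective P) (hprod : ∏ j, P j = f - c ^ ℓ) (hne : f - c ^ ℓ ≠ 0) :
    ∑ j, ptCl ℓ f (P j, c) = 0 := by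
  have hKK : f.map (algebraMap K K) = f := by rw [Algebra.algebraMap_self, Polynomial.map_id]
  have h1 : ∀ s : Finset (Fin n), IsCl K (∏ j ∈ s, prI ℓ (f.map (algebraMap K K)) (P j) c)
      (∑ j ∈ s, ptCl ℓ f (P j, c)) := by
    intro s
    induction s using Finset.induction_on with
    | empty =>
      rw [Finset.prod_empty, Finset.sum_empty, Ideal.one_eq_top]
      exact cl_top H hg
    | insert j s hj ih =>
      rw [Finset.prod_insert hj, Finset.sum_insert hj]
      exact cl_mul H hg (ptCl_spec H hg (P := (P j, c)) (hP j).1) ih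
  have h2 := h1 Finset.univ
  rw [prod_prI Finset.univ P c (fun i _ j _ hij => ((hP i).1.coprime_iff_not_dvd).2 fun hd => hij
    (hPi (eq_of_monic_of_associated (hP i).2 (hP j).2 ((hP i).1.associated_of_dvd (hP j).1 hd)))),
    hprod] at h2
  have e : prI ℓ (f.map (algebraMap K K)) (f - c ^ ℓ) c =
      Ideal.span {yy ℓ (f.map (algebraMap K K)) - xp ℓ (f.map (algebraMap K K)) c} := by
    have h3 := prI_all (ℓ := ℓ) (f := f.map (algebraMap K K)) c
    rw [← h3]
    congr 2
    exact hKK.symm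
  rw [e] at h2
  haveI := H.ring ℓ K _ _ (hg.up K)
  refine (cl_zero_iff H hg h2).2 ⟨1, yy ℓ (f.map (algebraMap K K)) - xp ℓ (f.map (algebraMap K K)) c,
    one_ne_zero, ?_, ?_⟩
  · intro h0
    have := h2.ne
    rw [h0, Ideal.span_singleton_eq_bot.2 rfl] at this
    exact this rfl
  · rw [Ideal.span_singleton_one, Ideal.top_mul, Ideal.mul_top]

end rel

end Pool.Agent.Y160.RK
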