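import Pool.Agent.Y160.RK.Fam
import Pool.Agent.Y160.RK.Gen
import Pool.Agent.Y160.SH.Crit

/-!
# The family: generation of `J(K)` and the Tate-Shafarevich group
-/

set_option autoImplicit false
set_option linter.all false

open Polynomial IsDedekindDomain WithZero
open scoped nonZeroDivisors Classical

namespace Pool.Agent.Y160.RK

open Pool.Agent.TH115.GD (incl rs ak Sep rs_mul IsTower)
open Pool.Agent.Y160.SQ (Hyps LHyps Good Jac sg Rt dvP pe)
open Pool.Agent.Y160.SE (IsPw SmoothC)
open Pool.Agent.Y160.FT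
open Pool.Agent.Y160.SH (StShaLoc)

section cont

variable {k K : Type} [Field k] [Field K] [Algebra k[X] K] [IsFractionRing k[X] K]

/-- The function field of the curve, and the functions whose divisor is divisible by `q`. -/
theorem famCont4 {Goal : Prop} {p q s : ℕ} (hp : p.Prime) (hq : q = p ^ (s + 1)) {ζ : k}
    (hζ : IsPrimitiveRoot ζ q) {g : k[X]} {l : List (k[X] × k)} (hC : Base p g l)
    (hFam : FamP p q g l) (hTower : TowP p q g l)
    (cont : ∀ (R N : Type) [CommRing R] [IsDedekindDomain R] [Field N] [Algebra K N]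
      [Algebra k[X] N] [IsScalarTower k[X] K N] [Algebra R N] [IsFractionRing R N]
      [Algebra k[X] R] [IsScalarTower k[X] R N] [Algebra.IsIntegral k[X] R] (θ : N),
      aeval θ ((ff p q g l).map (algebraMap k[X] K)) = 0 →
      IntermediateField.adjoin K {θ} = ⊤ →
      (∀ z : N, z ≠ 0 → (∀ v : HeightOneSpectrum R, IsPw q (v.valuation N z)) →
        ∃ (u : k) (g0 : N) (A : k[X]), u ≠ 0 ∧ g0 ≠ 0 ∧ A.Monic ∧ VV g A ∧
          z = algebraMap k[X] N (C u) * g0 ^ q * aeval θ (psi k K A)) →
      aeval θ (psi k K g) ≠ 0 → Goal) : Goal := by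
  have hq0 : q ≠ 0 := by rw [hq]; exact pow_ne_zero _ hp.ne_zero
  haveI : NeZero q := ⟨hq0⟩
  obtain ⟨hmon, hdeg, hsm, hK, hF⟩ := hFam
  obtain ⟨hirrK, hsepK⟩ := hK K
  obtain ⟨R, _, _, _, x, u, hP, hsel⟩ := hTower
  obtain ⟨hsurj, hker⟩ := pres_swap hP
  have hn : (ff p q g l).natDegree ≠ 0 := by
    rw [hdeg]
    intro h0
    have := hC.cop
    rw [h0, Nat.coprime_zero_right] at this
    exact hp.one_lt.ne' this
  -- the algebra structures
  let φ : k[X] →+* R := ((aeval u : k[X] →ₐ[k] R) : k[X] →+* R)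
  letI : Algebra k[X] R := φ.toAlgebra
  haveI : IsDomain R := inferInstance
  have hinjR : Function.Injective (algebraMap k[X] R) := by
    rw [injective_iff_map_eq_zero]
    intro y hy
    have h1 : eval₂ φ x (C y) = 0 := by rw [eval₂_C]; exact hy
    have h2 := (hker _).1 h1
    by_contra hy0
    have h3 := natDegree_le_of_dvd h2 (C_ne_zero.2 hy0)
    rw [natDegree_C] at h3
    exact hn (Nat.le_zero.1 h3)
  have hkX : ∀ y : k[X], algebraMap k[X] (FractionRing R) y = algebraMap R (FractionRing R) (φ y) :=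
    fun y => IsScalarTower.algebraMap_apply k[X] R (FractionRing R) y
  have hinjN : Function.Injective (algebraMap k[X] (FractionRing R)) := by
    intro y y' h
    rw [hkX, hkX] at h
    exact hinjR (IsFractionRing.injective R (FractionRing R) h)
  have hkN : ∀ c : k, algebraMap k (FractionRing R) c =
      algebraMap R (FractionRing R) (algebraMap k R c) := fun c =>
    IsScalarTower.algebraMap_apply k R (FractionRing R) c
  letI : Algebra K (FractionRing R) := (IsFractionRing.lift hinjN : K →+* FractionRing R).toAlgebra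
  haveI : IsScalarTower k[X] K (FractionRing R) := IsScalarTower.of_algebraMap_eq fun y =>
    (IsFractionRing.lift_algebraMap hinjN y).symm
  have hroot : eval₂ φ x (ff p q g l) = 0 := (hker _).2 dvd_rfl
  haveI : Algebra.IsIntegral k[X] R := by
    refine ⟨fun z => ?_⟩
    obtain ⟨P, rfl⟩ := hsurj z
    have hx : IsIntegral k[X] x := ⟨ff p q g l, hmon, hroot⟩
    have : eval₂ φ x P = aeval x P := rfl
    rw [this]
    exact adjoin_le_integralClosure hx (aeval_mem_adjoin_singleton k[X] x)
  let θ : FractionRing R := algebraMap R (FractionRing R) x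
  have hθev : ∀ P : k[X][X], aeval θ (P.map (algebraMap k[X] K)) =
      algebraMap R (FractionRing R) (eval₂ φ x P) := by
    intro P
    rw [aeval_map_algebraMap]
    have h1 : algebraMap k[X] (FractionRing R) = (algebraMap R (FractionRing R)).comp φ :=
      RingHom.ext hkX
    rw [aeval_def, h1]
    exact (hom_eval₂ P φ (algebraMap R (FractionRing R)) x).symm
  have hθ : aeval θ ((ff p q g l).map (algebraMap k[X] K)) = 0 := by
    rw [hθev, hroot, map_zero]
  have htop : IntermediateField.adjoin K {θ} = ⊤ := by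
    rw [eq_top_iff]
    rintro z -
    have hR : ∀ r : R, algebraMap R (FractionRing R) r ∈ IntermediateField.adjoin K {θ} := by
      intro r
      obtain ⟨P, rfl⟩ := hsurj r
      rw [← hθev]
      exact IntermediateField.algebra_adjoin_le_adjoin K {θ}
        (aeval_mem_adjoin_singleton K θ)
    obtain ⟨a, b, hb, rfl⟩ := IsFractionRing.div_surjective (A := R) z
    exact div_mem (hR a) (hR b)
  -- the function `H`
  obtain ⟨H0, hH0⟩ := g_eq hP
  have hgx : aeval x g ≠ 0 := by
    intro h0
    have h1 : eval₂ φ x (g.map C) = 0 := by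
      rw [eval₂_map]
      have : φ.comp C = algebraMap k R := by
        apply RingHom.ext
        intro c
        show aeval u (C c) = _
        rw [aeval_C]
      rw [this]
      exact h0
    have h2 := (hker _).1 h1
    have h3 : (g.map C : k[X][X]).natDegree = (ff p q g l).natDegree := by
      rw [hdeg, hC.monic.natDegree_map]
    have h4 := eq_of_monic_of_dvd_of_natDegree_le hmon (hC.monic.map C) h2 h3.le
    have h5 : (EE p (mapRingHom C) l (C X) : k[X][X]) ^ q = 0 := by
      have h6 : g.map C + (EE p (mapRingHom C) l (C X) : k[X][X]) ^ q = g.map C := h4.symm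
      exact add_eq_left.1 h6
    have h7 := pow_eq_zero_iff hq0 |>.1 h5
    refine EE_ne hp.ne_zero l ?_ h7
    intro y hy
    obtain ⟨l1, l2, hl⟩ := List.append_of_mem hy
    exact hC.ne l1 y.1 y.2 l2 hl
  have hgsq : Squarefree g := hC.sep.squarefree
  have hφC : φ.comp C = algebraMap k R := by
    apply RingHom.ext
    intro c
    show aeval u (C c) = _
    rw [aeval_C]
  have h2 : ∀ y : k[X], aeval θ (psi k K y) = algebraMap R (FractionRing R) (aeval x y) := by
    intro y
    have h3 : psi k K y = (y.map C).map (algebraMap k[X] K) := by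
      rw [Polynomial.map_map]; rfl
    rw [h3, hθev, eval₂_map]
    congr 1
    rw [hφC]
    rfl
  refine cont R (FractionRing R) θ hθ htop ?_ ?_
  · intro z hz hv
    obtain ⟨c, A, w, hc, ⟨M, hA⟩, hw, e⟩ := sel_q (L := FractionRing R) hkN hp.ne_zero hq hgsq hH0
      hgx (hsel (FractionRing R) hkN) (s + 1) le_rfl z hz (by rw [← hq]; exact hv)
    rw [← hq] at e
    have hA0 : A ≠ 0 := by
      rintro rfl
      apply hz
      rw [e, map_zero, map_zero, mul_zero, zero_mul]
    have hlc : A.leadingCoeff ≠ 0 := leadingCoeff_ne_zero.2 hA0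
    have hAA : A = C A.leadingCoeff * (C A.leadingCoeff⁻¹ * A) := by
      rw [← mul_assoc, ← C_mul, mul_inv_cancel₀ hlc, C_1, one_mul]
    refine ⟨c * A.leadingCoeff, w, C A.leadingCoeff⁻¹ * A, mul_ne_zero hc hlc, hw, ?_, ⟨M, ?_⟩, ?_⟩
    · rw [Monic, leadingCoeff_mul, leadingCoeff_C, inv_mul_cancel₀ hlc]
    · exact dvd_trans ⟨C A.leadingCoeff, by rw [mul_comm]; exact hAA⟩ hA
    · have h3 : algebraMap k[X] (FractionRing R) (C (c * A.leadingCoeff)) =
          algebraMap k (FractionRing R) (c * A.leadingCoeff) := by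
        rw [hkX, hkN]
        congr 1
        show aeval u (C (c * A.leadingCoeff)) = _
        rw [aeval_C]
      rw [h2, h3, e]
      have h4 : aeval x A = algebraMap k R A.leadingCoeff * aeval x (C A.leadingCoeff⁻¹ * A) := by
        have h5 := congrArg (aeval x) hAA
        rw [map_mul, aeval_C] at h5
        exact h5
      rw [h4, map_mul (algebraMap R (FractionRing R)), map_mul (algebraMap k (FractionRing R)),
        hkN A.leadingCoeff]
      ring
  · rw [h2]
    intro h
    exact hgx (IsFractionRing.injective R (FractionRing R) (by rw [h, map_zero]))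

end cont

section fac

variable {k : Type} [Field k]

theorem ms_map {α β : Type} (G : α → β) (T : Multiset β) (hT : ∀ b ∈ T, ∃ a, G a = b) :
    ∃ S : Multiset α, S.map G = T := by
  induction T using Multiset.induction_on with
  | empty => exact ⟨0, rfl⟩
  | cons b T ih =>
    obtain ⟨a, ha⟩ := hT b (Multiset.mem_cons_self b T)
    obtain ⟨S, hS⟩ := ih fun c hc => hT c (Multiset.mem_cons_of_mem hc)
    exact ⟨a ::ₘ S, by rw [Multiset.map_cons, ha, hS]⟩

/-- A monic divisor of a power of `∏ G j` is a product of the `G j`. -/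
theorem fac_of {n : ℕ} {G : Fin n → k[X]} (hG : ∀ j, Irreducible (G j) ∧ (G j).Monic) {g A : k[X]}
    (hgG : g = ∏ j, G j) (hA : A.Monic) (hV : VV g A) :
    ∃ S : Multiset (Fin n), (S.map G).prod = A := by
  obtain ⟨M, hM⟩ := hV
  obtain ⟨S, hS⟩ := ms_map G (UniqueFactorizationMonoid.normalizedFactors A) fun b hb => by
    have h1 := UniqueFactorizationMonoid.irreducible_of_normalized_factor b hb
    have h2 := UniqueFactorizationMonoid.dvd_of_mem_normalizedFactors hb
    have h3 := UniqueFactorizationMonoid.normalize_normalized_factor b hb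
    have hbm : b.Monic := by
      have h4 := Polynomial.monic_normalize h1.ne_zero
      rwa [h3] at h4
    have h5 : b ∣ g := h1.prime.dvd_of_dvd_pow (h2.trans hM)
    rw [hgG, h1.prime.dvd_finset_prod_iff] at h5
    obtain ⟨j, -, hj⟩ := h5
    exact ⟨j, (eq_of_monic_of_associated hbm (hG j).2 (h1.associated_of_dvd (hG j).1 hj)).symm⟩
  refine ⟨S, ?_⟩
  rw [hS]
  have h6 := UniqueFactorizationMonoid.prod_normalizedFactors hA.ne_zero
  refine eq_of_monic_of_associated ?_ hA h6
  rw [← hS]
  exact monic_multiset_prod_of_monic _ _ fun j _ => (hG j).2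

end fac

section fam

variable {k k' K F : Type} [Field k] [Field k'] [Algebra k k'] [Field K] [Algebra k[X] K]
  [Field F] [Algebra k'[X] F] [IsFractionRing k'[X] F] [Algebra K F]

/-- The Tate-Shafarevich group. -/
theorem famSha (H : Hyps) (HL : LHyps) (hLoc : StShaLoc) (hT : IsTower k k' K F)
    [IsFractionRing k[X] K] {p q s : ℕ}
    (hp : p.Prime) (hq : q = p ^ (s + 1)) {ζ : k} (hζ : IsPrimitiveRoot ζ q) {g : k[X]}
    {l : List (k[X] × k)} (hC : Base p g l) (hFam : FamP p q g l) (hTower : TowP p q g l) :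
    SH.ShaTriv p q k[X] ((ff p q g l).map (algebraMap k[X] K)) := by
  refine famCont (K := K) hp hq hζ hC hFam hTower ?_
  intro R N _ _ _ _ _ _ _ _ _ _ _ θ hθ htop hpts
  refine SH.mainSha (R := R) (N := N) hp (Nat.succ_pos s) hq H HL hLoc hT hζ hFam.monic ?_
    (hFam.irrK K).2 hFam.smooth (hFam.irrK K).1 hθ htop hpts
  rw [hFam.deg]; exact hC.cop

/-- Generation modulo `1 - σ`. -/
theorem famGen1 (H : Hyps) (HL : LHyps) (hInj : StInj) (hLoc : StShaLoc) (hT : IsTower k k' K F)
    [IsFractionRing k[X] K] {p q s : ℕ}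
    (hp : p.Prime) (hq : q = p ^ (s + 1)) {ζ : k} (hζ : IsPrimitiveRoot ζ q) {g : k[X]}
    {l : List (k[X] × k)} (hC : Base p g l) (hFam : FamP p q g l) (hTower : TowP p q g l) {r : ℕ}
    (G : Fin (r + 1) → k[X]) (hG : ∀ j, Irreducible (G j) ∧ (G j).Monic)
    (hGi : Function.Injective G) (hgG : g = ∏ j, G j)
    (hg : Good q (algebraMap k[X] K (C ζ)) ((ff p q g l).map (algebraMap k[X] K)))
    (x : Jac q ((ff p q g l).map (algebraMap k[X] K)) K) :
    ∃ y, x - pe hg K (1 - X) y ∈ spanD hg (fun j : Fin r =>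
      ptCl q ((ff p q g l).map (algebraMap k[X] K)) (psi k K (G (Fin.castSucc j)), hK k K p l)) := by
  refine famCont4 (K := K) hp hq hζ hC hFam hTower ?_
  intro R N _ _ _ _ _ _ _ _ _ _ _ θ hθ htop hsel hgθ
  obtain ⟨hirrK, hsepK⟩ := hFam.irrK K
  have hGg : ∀ j, G j ∣ g := fun j => by rw [hgG]; exact Finset.dvd_prod_of_mem _ (Finset.mem_univ j)
  have hfh : (ff p q g l).map (algebraMap k[X] K) - hK k K p l ^ q = psi k K g := ff_sub g l
  have hPp : ∀ j, Irreducible (psi k K (G j)) ∧ (psi k K (G j)).Monic ∧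
      ¬ psi k K (G j) ∣ (ff p q g l).map (algebraMap k[X] K) ∧
      psi k K (G j) ∣ (ff p q g l).map (algebraMap k[X] K) - hK k K p l ^ q := by
    intro j
    have hir := irr_psi (K := K) (hG j).1 (hG j).2
    refine ⟨hir, (hG _).2.map _, ?_, ?_⟩
    · intro hd
      apply hgθ
      have h3 := hir.associated_of_dvd hirrK hd
      have h4 := h3.symm.dvd.trans (_root_.map_dvd (psi k K) (hGg j))
      obtain ⟨v, hv⟩ := h4
      rw [hv, map_mul, hθ, zero_mul]
    · rw [hfh]
      exact _root_.map_dvd (psi k K) (hGg _)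
  obtain ⟨T, y, hTP, hx⟩ := SH.mainGen (R := R) (N := N) hp (Nat.succ_pos s) hq H HL hInj hLoc hT hζ
    hg hFam.monic (by rw [hFam.deg]; exact hC.cop) hsepK hFam.smooth hirrK hθ htop
    (Set.range fun j : Fin (r + 1) => (psi k K (G j), hK k K p l))
    (by rintro _ ⟨j, rfl⟩; exact hPp j)
    (by
      intro z hz hv
      obtain ⟨u, g0, A, hu, hg0, hA, hV, e⟩ := hsel z hz hv
      obtain ⟨S, hS⟩ := fac_of hG hgG hA hV
      refine ⟨u, g0, S.map fun j => (psi k K (G j), hK k K p l), hu, hg0, ?_, ?_⟩
      · intro P hP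
        obtain ⟨j, -, rfl⟩ := Multiset.mem_map.1 hP
        exact ⟨j, rfl⟩
      · rw [e]
        congr 1
        rw [SQ.dvP_eval, Multiset.map_map, ← hS, map_multiset_prod, map_multiset_prod,
          Multiset.map_map, Multiset.map_map]
        rfl) x
  refine ⟨y, ?_⟩
  rw [hx, add_sub_cancel_right]
  have hcast : ∀ j : Fin r, ptCl q ((ff p q g l).map (algebraMap k[X] K))
      (psi k K (G (Fin.castSucc j)), hK k K p l) ∈ spanD hg (fun j : Fin r =>
      ptCl q ((ff p q g l).map (algebraMap k[X] K)) (psi k K (G (Fin.castSucc j)), hK k K p l)) :=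
    fun j => mem_spanD hg (fun j : Fin r =>
      ptCl q ((ff p q g l).map (algebraMap k[X] K)) (psi k K (G (Fin.castSucc j)), hK k K p l)) j
  have hall : ∀ j : Fin (r + 1), ptCl q ((ff p q g l).map (algebraMap k[X] K))
      (psi k K (G j), hK k K p l) ∈ spanD hg (fun j : Fin r =>
      ptCl q ((ff p q g l).map (algebraMap k[X] K)) (psi k K (G (Fin.castSucc j)), hK k K p l)) := by
    intro j
    refine Fin.lastCases ?_ (fun j => hcast j) j
    have h1 := sum_pts H hg (fun j => psi k K (G j)) (hK k K p l)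
      (fun j => ⟨(hPp j).1, (hPp j).2.1⟩) (fun i j hij => hGi (by
        have hinj : Function.Injective (psi k K) := Polynomial.map_injective _
          ((IsFractionRing.injective k[X] K).comp C_injective)
        exact hinj hij)) (by
        rw [hfh, hgG, map_prod]) (by
        rw [hfh]
        intro h0
        apply hgθ
        rw [h0, map_zero])
    rw [Fin.sum_univ_castSucc] at h1
    rw [eq_neg_of_add_eq_zero_right h1]
    exact AddSubgroup.neg_mem _ (AddSubgroup.sum_mem _ fun j _ => hcast j)
  refine AddSubgroup.multiset_sum_mem _ _ fun c hc => ?_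
  obtain ⟨P, hP, rfl⟩ := Multiset.mem_map.1 hc
  obtain ⟨j, rfl⟩ := hTP P hP
  exact hall j

/-- **The structure of `J(K)` at `p`**. -/
theorem famBasis (H : Hyps) (HL : LHyps) (hInj : StInj) (hLin : StLin) (hLoc : StShaLoc)
    (hT : IsTower k k' K F) [IsFractionRing k[X] K] {p q s : ℕ}
    (hp : p.Prime) (hq : q = p ^ (s + 1)) {ζ : k} (hζ : IsPrimitiveRoot ζ q) {g : k[X]}
    {l : List (k[X] × k)} (hC : Base p g l) (hFam : FamP p q g l) (hTower : TowP p q g l)
    (hI : IndP p q g l) {r : ℕ}
    (G : Fin (r + 1) → k[X]) (hG : ∀ j, Irreducible (G j) ∧ (G j).Monic)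
    (hGi : Function.Injective G) (hgG : g = ∏ j, G j) :
    ∃ D : Fin r × Fin (q - 1) → Jac q ((ff p q g l).map (algebraMap k[X] K)) K,
      LinearIndependent ℤ D ∧ ∀ (n : ℕ) (x : Jac q ((ff p q g l).map (algebraMap k[X] K)) K),
        ∃ y, x - p ^ n • y ∈ AddSubgroup.closure (Set.range D) := by
  have hg := goodF (K := K) hp hq hζ hC hFam
  refine ⟨_, famRank H hInj hLin hp hq hζ hC hFam hTower hI G hG hGi hgG hg, fun n x => ?_⟩
  exact gen_iter H hg hp hq (fun j : Fin r =>
      ptCl q ((ff p q g l).map (algebraMap k[X] K)) (psi k K (G (Fin.castSucc j)), hK k K p l))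
    (famGen1 H HL hInj hLoc hT hp hq hζ hC hFam hTower G hG hGi hgG hg) n x

end fam

end Pool.Agent.Y160.RK
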