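import Pool.Agent.Y160.SQ.PtI
import Pool.Agent.Y160.SQ.Par
import Pool.Agent.Y160.FT.Stmts2

/-!
# Independence of the classes of points: the abstract part
-/

set_option autoImplicit false
set_option linter.all false

open Polynomial IsDedekindDomain WithZero
open scoped nonZeroDivisors Classical

namespace Pool.Agent.Y160.RK

open Pool.Agent.TH115.GD (incl rs ak Sep rs_mul)
open Pool.Agent.Y160.SQ

/-- Injectivity of the base change of classes of ideals. -/
def StInj : Prop := ∀ (ℓ : ℕ) (E Ω : Type) [Field E] [Field Ω] [Algebra E Ω] (ζ : E) (f : E[X])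
  (f' : Polynomial Ω) (hf : f.map (algebraMap E Ω) = f') (hg : Good ℓ ζ f) (I : Ideal (CR ℓ f)),
  I ≠ ⊥ → Eqv (I.map (crMap ℓ (algebraMap E Ω) f f' hf)) ⊤ → Eqv I ⊤

section cls

variable {ℓ : ℕ} {K : Type} [Field K] {f : K[X]} {ζ : K} (H : Hyps) (hg : Good ℓ ζ f)

/-- The class of the divisor `p = 0`, `y = c`. -/
noncomputable def ptCl (ℓ : ℕ) (f : K[X]) (P : K[X] × K[X]) : Jac ℓ f K :=
  if h : ∃ x : Jac ℓ f K, IsCl K (prI ℓ (f.map (algebraMap K K)) P.1 P.2) x then h.choose else 0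

include H hg

theorem ptCl_spec {P : K[X] × K[X]} (hP : Irreducible P.1) :
    IsCl K (prI ℓ (f.map (algebraMap K K)) P.1 P.2) (ptCl ℓ f P) := by
  have h : ∃ x : Jac ℓ f K, IsCl K (prI ℓ (f.map (algebraMap K K)) P.1 P.2) x :=
    cl_exists H hg (prI_ne hg.ne hP)
  unfold ptCl
  rw [dif_pos h]
  exact h.choose_spec

theorem dvI_cl {S : Multiset (K[X] × K[X])} (hS : ∀ P ∈ S, Irreducible P.1) :
    IsCl K (dvI ℓ (f.map (algebraMap K K)) S) ((S.map (ptCl ℓ f)).sum) := by
  induction S using Multiset.induction_on with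
  | empty =>
    unfold dvI
    rw [Multiset.map_zero, Multiset.prod_zero, Multiset.map_zero, Multiset.sum_zero,
      Ideal.one_eq_top]
    exact cl_top H hg
  | cons P S ih =>
    unfold dvI at *
    rw [Multiset.map_cons, Multiset.prod_cons, Multiset.map_cons, Multiset.sum_cons]
    exact cl_mul H hg (ptCl_spec H hg (hS P (Multiset.mem_cons_self P S)))
      (ih fun Q hQ => hS Q (Multiset.mem_cons_of_mem hQ))

end cls

section key

variable {ℓ : ℕ} {K N Ω : Type} [Field K] [Field N] [Field Ω] [Algebra K N] [Algebra N Ω]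
  [Algebra K Ω] [IsScalarTower K N Ω] [IsGalois K Ω] [IsSepClosed Ω] {f : K[X]} {ζ : K} (H : Hyps)
  (hg : Good ℓ ζ f)

include H hg

omit [IsGalois K Ω] [IsSepClosed Ω] [Field N] [Algebra K N] [Algebra N Ω] [IsScalarTower K N Ω] in
theorem jm_fix (φ : Ω →ₐ[K] Ω) (y : Jac ℓ f K) :
    jm ℓ f φ (jm ℓ f (incl K K Ω) y) = jm ℓ f (incl K K Ω) y := by
  have h1 : φ.comp (incl K K Ω) = incl K K Ω := AlgHom.ext fun x => φ.commutes x
  rw [jm_jm, h1]

/-- If a sum of points is divisible by `1 - σ` in `J(K)`, then the function is an `ℓ`-th power. -/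
theorem rank_key {a : Ω} (ha : Rt f a) {θ : N} (hθ : algebraMap N Ω θ = a)
    {T : Multiset (K[X] × K[X])}
    (hT : ∀ P ∈ T, Irreducible P.1 ∧ P.1.Monic ∧ ¬ P.1 ∣ f ∧ P.1 ∣ f - P.2 ^ ℓ)
    {y : Jac ℓ f K} (hy : (T.map (ptCl ℓ f)).sum = pe hg K (1 - X) y) :
    ∃ w : N, w ≠ 0 ∧ (aeval θ (dvP T) ^ f.natDegree = w ^ ℓ ∨
      aeval θ (dvP T) ^ f.natDegree = -w ^ ℓ) := by
  haveI : IsGalois N Ω := IsGalois.tower_top_of_isGalois K N Ω
  have hKK : f.map (algebraMap K K) = f := by rw [Algebra.algebraMap_self, Polynomial.map_id]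
  have hTp : ∀ P ∈ T, Irreducible P.1 ∧ P.1.Monic ∧ ¬ P.1 ∣ f.map (algebraMap K K) ∧
      P.1 ∣ f.map (algebraMap K K) - P.2 ^ ℓ := by
    intro P hP
    rw [hKK]
    exact hT P hP
  let I : Ideal (CR ℓ (f.map (algebraMap K K))) := dvI ℓ _ T
  have hIc : I ⊔ Ideal.span {yy ℓ (f.map (algebraMap K K))} = ⊤ := dvI_cop fun P hP =>
    ⟨(hTp P hP).1, not_dvd_c hg.ne (hTp P hP).1 (hTp P hP).2.2.1 (hTp P hP).2.2.2⟩
  have hIP : IsCl K I ((T.map (ptCl ℓ f)).sum) := dvI_cl H hg fun P hP => (hT P hP).1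
  have hN := dvI_norm (ℓ := ℓ) H.max (hg.up K) (S := T) hTp
  have hLP := dvP_lp hg.pos hTp
  have hR0 : pe hg Ω (1 - X) (jm ℓ f (incl K K Ω) y) =
      jm ℓ f (incl K K Ω) ((T.map (ptCl ℓ f)).sum) := by
    rw [hy, jm_pe]
  obtain ⟨t', ht1, ht2⟩ := kcJ H hg hIP hIc (lp_coprime hLP) hN hR0
  obtain ⟨ht0, hG0, hteq⟩ := ht1 a ha
  -- `t' a` is in `N`
  obtain ⟨t, ht⟩ : ∃ t : N, algebraMap N Ω t = t' a := by
    have : t' a ∈ Set.range (algebraMap N Ω) := by
      rw [InfiniteGalois.mem_range_algebraMap_iff_fixed]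
      intro τ
      let τ' : Ω ≃ₐ[K] Ω := τ.restrictScalars K
      have e0 : jm ℓ f (rs K τ') (jm ℓ f (incl K K Ω) y) - jm ℓ f (incl K K Ω) y = 0 := by
        rw [jm_fix H hg, sub_self]
      have h2 := ht2 τ' a ha (by rw [e0]; exact Tor.zero)
      have h3 : τ' a = a := by
        rw [← hθ]
        exact τ.commutes θ
      rw [e0, h3, chi_zero H hg ha, one_mul] at h2
      exact h2
    obtain ⟨t, ht⟩ := this
    exact ⟨t, ht⟩
  have hspl : ((f.map (algebraMap K K)).map (algebraMap K Ω)).Splits := by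
    rw [hKK]; exact splits_up hg
  obtain ⟨v, hv⟩ := lp_norm (hg.up K).monic hspl hLP
  rw [hKK] at hv
  have haev : aeval a (dvP T) = algebraMap N Ω (aeval θ (dvP T)) := by
    rw [← hθ, aeval_algebraMap_apply]
  have hv0 : algebraMap K Ω v ≠ 0 := by
    intro h0
    have h1 : aeval a (dvP T) ^ f.natDegree = 0 := by
      rw [← hteq]
      rcases hv with h | h
      · rw [h, map_pow, h0, zero_pow hg.ne, mul_zero]
      · rw [h, map_pow, h0, zero_pow hg.ne, neg_zero, mul_zero]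
    exact pow_ne_zero _ hG0 h1
  refine ⟨t * algebraMap K N v, ?_, ?_⟩
  · intro h0
    have h1 := congrArg (algebraMap N Ω) h0
    rw [map_mul, ht, ← IsScalarTower.algebraMap_apply K N Ω, map_zero] at h1
    exact mul_ne_zero ht0 hv0 h1
  · rcases hv with h | h
    · left
      apply (algebraMap N Ω).injective
      rw [map_pow, ← haev, ← hteq, h, map_pow, map_pow, map_mul, ht,
        ← IsScalarTower.algebraMap_apply K N Ω, mul_pow]
    · right
      apply (algebraMap N Ω).injective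
      rw [map_pow, ← haev, ← hteq, h, map_neg, map_pow, map_pow, map_mul, ht,
        ← IsScalarTower.algebraMap_apply K N Ω, mul_pow, mul_neg]

end key

section inj

variable {ℓ : ℕ} {K : Type} [Field K] {f : K[X]} {ζ : K} (H : Hyps)
  (hg : Good ℓ ζ f) (hInj : StInj)

include H hg hInj

theorem jm_inj (Ω : Type) [Field Ω] [Algebra K Ω] {y : Jac ℓ f K}
    (h : jm ℓ f (incl K K Ω) y = 0) : y = 0 := by
  obtain ⟨I, hI, hIy⟩ := exists_cl H hg y
  have hf : (f.map (algebraMap K K)).map (algebraMap K Ω) = f.map (algebraMap K Ω) := by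
    rw [Polynomial.map_map, ← IsScalarTower.algebraMap_eq]
  have h1 := cl_map H hg hIy (incl K K Ω)
  have h2 := (cl_zero_iff H hg h1).1 h
  refine (cl_zero_iff H hg hIy).2 (hInj ℓ K Ω _ _ _ hf (hg.up K) I hI ?_)
  exact h2

/-- There is no element of `J(K)` killed by `1 - σ`. -/
theorem no_tor_base (hirr : Irreducible f) {y : Jac ℓ f K} (hy : y - sg hg K y = 0) : y = 0 := by
  refine jm_inj H hg hInj (Sep K) ?_
  have hKK : f.map (algebraMap K K) = f := by rw [Algebra.algebraMap_self, Polynomial.map_id]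
  refine no_tor (F := K) H hg (by rw [hKK]; exact hirr) (x := jm ℓ f (incl K K (Sep K)) y) ?_
    (fun σ => jm_fix H hg (rs K σ) y)
  unfold Tor
  rw [← jm_pe, pe_sub, pe_one, pe_X, hy, map_zero]

end inj

section lin

open Pool.Agent.Y160.FT (StLin)

variable {ℓ p s : ℕ} {K N Ω : Type} [Field K] [Field N] [Field Ω] [Algebra K N] [Algebra N Ω]
  [Algebra K Ω] [IsScalarTower K N Ω] [IsGalois K Ω] [IsSepClosed Ω] {f : K[X]} {ζ : K} (H : Hyps)
  (hg : Good ℓ ζ f) (hInj : StInj) (hLin : StLin)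

include H hg hInj hLin

/-- The classes of the points and their twists are independent. -/
theorem rank_lin (hp : p.Prime) (hℓ : ℓ = p ^ (s + 1)) (hirr : Irreducible f) {a : Ω}
    (ha : Rt f a) {θ : N} (hθ : algebraMap N Ω θ = a) {r : ℕ} (P : Fin r → K[X] × K[X])
    (hP : ∀ j, Irreducible (P j).1 ∧ (P j).1.Monic ∧ ¬ (P j).1 ∣ f ∧ (P j).1 ∣ f - (P j).2 ^ ℓ)
    (hind : ∀ (e : Fin r → ℕ) (w : N), w ≠ 0 →
      ((∏ j, aeval θ (P j).1 ^ e j) ^ f.natDegree = w ^ ℓ ∨
        (∏ j, aeval θ (P j).1 ^ e j) ^ f.natDegree = -w ^ ℓ) → ∀ j, ℓ ∣ e j) :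
    LinearIndependent ℤ (fun i : Fin r × Fin (ℓ - 1) =>
      ((sg hg K) ^ (i.2 : ℕ)) (ptCl ℓ f (P i.1))) := by
  refine hLin p s ℓ (Jac ℓ f K) (sg hg K) r (fun j => ptCl ℓ f (P j)) hp hℓ ?_ ?_ ?_
  · intro x
    have h := pe_nrm H hg x
    unfold pe nrm at h
    rw [map_sum] at h
    have h2 : (∑ i ∈ Finset.range ℓ, aeval (sg hg K) ((X : ℤ[X]) ^ i)) x =
        ∑ i ∈ Finset.range ℓ, ((sg hg K) ^ i) x := by
      have h3 : ∀ S : Finset ℕ, (∑ i ∈ S, aeval (sg hg K) ((X : ℤ[X]) ^ i)) x =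
          ∑ i ∈ S, ((sg hg K) ^ i) x := by
        intro S
        induction S using Finset.induction_on with
        | empty => rw [Finset.sum_empty, Finset.sum_empty]; rfl
        | insert j S hj ih =>
          rw [Finset.sum_insert hj, Finset.sum_insert hj, ← ih, map_pow, aeval_X]
          rfl
      exact h3 _
    rw [← h2]
    exact h
  · intro x hx
    exact no_tor_base H hg hInj hirr hx
  · intro b y hb
    have hℓ0 : (ℓ : ℤ) ≠ 0 := by exact_mod_cast hg.ne
    let e : Fin r → ℕ := fun j => (b j % ℓ).toNat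
    have he : ∀ j, (e j : ℤ) = b j % ℓ := fun j => Int.toNat_of_nonneg (Int.emod_nonneg _ hℓ0)
    have hbe : ∀ j, b j = (ℓ : ℤ) * (b j / ℓ) + e j := fun j => by
      rw [he]; exact (Int.mul_ediv_add_emod _ _).symm
    -- the sum
    have hsum : ∑ j, e j • ptCl ℓ f (P j) =
        pe hg K (1 - X) (y - ∑ j, (b j / ℓ) • pe hg K (uu ℓ) (ptCl ℓ f (P j))) := by
      rw [map_sub, map_sum]
      have h1 : pe hg K (1 - X) y = ∑ j, b j • ptCl ℓ f (P j) := by
        rw [pe_sub, pe_one, pe_X]; exact hb.symm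
      rw [h1, ← Finset.sum_sub_distrib]
      refine Finset.sum_congr rfl fun j _ => ?_
      rw [map_zsmul, uu_mul' H]
      have h2 : b j • ptCl ℓ f (P j) = (b j / ℓ) • ℓ • ptCl ℓ f (P j) + e j • ptCl ℓ f (P j) := by
        have h3 : b j • ptCl ℓ f (P j) = ((ℓ : ℤ) * (b j / ℓ) + e j) • ptCl ℓ f (P j) :=
          congrArg (fun n : ℤ => n • ptCl ℓ f (P j)) (hbe j)
        rw [h3, add_smul, mul_smul, natCast_zsmul, natCast_zsmul, smul_comm]
      rw [h2, add_sub_cancel_left]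
    let T : Multiset (K[X] × K[X]) := ∑ j, e j • {P j}
    have hTmem : ∀ Q ∈ T, ∃ j, Q = P j := by
      intro Q hQ
      obtain ⟨j, -, hj⟩ := Multiset.mem_sum.1 hQ
      have := Multiset.mem_of_mem_nsmul hj
      rw [Multiset.mem_singleton] at this
      exact ⟨j, this⟩
    have hTs : (T.map (ptCl ℓ f)).sum = ∑ j, e j • ptCl ℓ f (P j) := by
      have h1 : (T.map (ptCl ℓ f)).sum = Multiset.sumAddMonoidHom
        (Multiset.mapAddMonoidHom (ptCl ℓ f) T) := rfl
      rw [h1, map_sum, map_sum]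
      refine Finset.sum_congr rfl fun j _ => ?_
      rw [map_nsmul, map_nsmul]
      congr 1
      show ((({P j} : Multiset (K[X] × K[X])).map (ptCl ℓ f))).sum = _
      rw [Multiset.map_singleton, Multiset.sum_singleton]
    have hTp : aeval θ (dvP T) = ∏ j, aeval θ (P j).1 ^ e j := by
      rw [dvP_eval]
      have h1 : ∀ S : Finset (Fin r), ((∑ j ∈ S, e j • ({P j} : Multiset (K[X] × K[X]))).map
          fun P => aeval θ P.1).prod = ∏ j ∈ S, aeval θ (P j).1 ^ e j := by
        intro S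
        induction S using Finset.induction_on with
        | empty => rw [Finset.sum_empty, Finset.prod_empty, Multiset.map_zero, Multiset.prod_zero]
        | insert j S hj ih =>
          rw [Finset.sum_insert hj, Finset.prod_insert hj, Multiset.map_add, Multiset.prod_add, ih,
            Multiset.map_nsmul, Multiset.prod_nsmul, Multiset.map_singleton,
            Multiset.prod_singleton]
      exact h1 Finset.univ
    obtain ⟨w, hw0, hw⟩ := rank_key H hg ha hθ (T := T) (fun Q hQ => by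
      obtain ⟨j, rfl⟩ := hTmem Q hQ
      exact hP j) (hTs.trans hsum)
    rw [hTp] at hw
    intro j
    have h1 := hind e w hw0 hw j
    have h2 : (ℓ : ℤ) ∣ (e j : ℤ) := by exact_mod_cast h1
    rw [hbe j]
    exact dvd_add (dvd_mul_right _ _) h2

end lin

end Pool.Agent.Y160.RK
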